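import Pool.Agent.Lib.MP_65c863_al.Set

/-! For every finite field `K` of odd order `q ^ 3`, the group `SL(2, K)`, of order `n`, has a
product-free subset with at least `n ^ (8 / 9) / 20` elements. -/

namespace Pool.Agent.Variants.MP_65c863_al.CubicSharp

open Pool.Agent.Lib.MP_65c863_al

theorem exists_subfield (K : Type) [Field K] [Finite K] (q : ℕ) (hq : Odd q)
    (hK : Nat.card K = q ^ 3) :
    ∃ (k : Type) (_ : Field k) (_ : Algebra k K),
      Module.finrank k K = 3 ∧ ringChar k ≠ 2 ∧ Nat.card k = q := by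
  have := Fintype.ofFinite K
  obtain ⟨p, hp⟩ := CharP.exists K
  obtain ⟨n, hpp, hn⟩ := FiniteField.card K p
  have : Fact p.Prime := ⟨hpp⟩
  rw [Nat.card_eq_fintype_card, hn] at hK
  have hd : q ∣ p ^ (n : ℕ) := hK ▸ dvd_pow_self q (by norm_num)
  obtain ⟨m, -, rfl⟩ := (Nat.dvd_prime_pow hpp).1 hd
  have hnm : (n : ℕ) = m * 3 := by
    rw [← pow_mul] at hK
    exact Nat.pow_right_injective hpp.two_le hK
  have hm : m ≠ 0 := by
    rintro rfl
    simp at hnm
  let _ : Algebra (ZMod p) K := ZMod.algebra K p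
  have hfK : Module.finrank (ZMod p) K = m * 3 := by
    apply Nat.pow_right_injective hpp.two_le
    have := Module.card_eq_pow_finrank (K := ZMod p) (V := K)
    rw [ZMod.card, hn, hnm] at this
    exact this.symm
  obtain ⟨f⟩ := FiniteField.nonempty_algHom_of_finrank_dvd (F := ZMod p)
    (K := GaloisField p m) (L := K) (by rw [GaloisField.finrank p hm, hfK]; exact dvd_mul_right _ _)
  let _ : Algebra (GaloisField p m) K := f.toAlgebra
  have hc := GaloisField.card p m hm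
  refine ⟨GaloisField p m, inferInstance, inferInstance, ?_, ?_, hc⟩
  · have := Fintype.ofFinite (GaloisField p m)
    have h1 := Module.card_eq_pow_finrank (K := GaloisField p m) (V := K)
    rw [← Nat.card_eq_fintype_card (α := GaloisField p m), hc, hn, hnm, pow_mul] at h1
    exact (Nat.pow_right_injective (Nat.one_lt_pow hm hpp.one_lt) h1).symm
  · rw [ringChar.eq (GaloisField p m) p]
    rintro rfl
    exact (Nat.not_even_iff_odd.2 hq) (Nat.even_pow.2 ⟨even_two, hm⟩)

theorem result (K : Type) [Field K] [Finite K] (q : ℕ) (hq : Odd q) (hK : Nat.card K = q ^ 3) :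
    ∃ S : Finset (Matrix.SpecialLinearGroup (Fin 2) K),
      (∀ a ∈ S, ∀ b ∈ S, ∀ c ∈ S, a * b ≠ c) ∧
      (1 / 20 : ℝ) * (Nat.card (Matrix.SpecialLinearGroup (Fin 2) K) : ℝ) ^ (8 / 9 : ℝ)
        ≤ (S.card : ℝ) := by
  obtain ⟨k, _, _, h3, hk, hc⟩ := exists_subfield K q hq hK
  obtain ⟨S, hS, h, n, g, hn, hh, hg, hcard⟩ := exists_set h3 hk
  refine ⟨S, hS, ?_⟩
  rw [hc] at hn hh hg hcard
  have hq1 : 1 < q := by
    have : Finite k := Finite.of_injective _ (algebraMap k K).injective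
    rw [← hc]; exact Finite.one_lt_card
  have h2 : 2 * h + 1 = q ^ 2 := by
    obtain ⟨t, ht⟩ := hq.pow (n := 2)
    omega
  have h4 : q ^ 2 - h = h + 1 := by omega
  have hq3 : (3 : ℝ) ≤ q := by exact_mod_cast (by omega : 3 ≤ q)
  have hG : (Nat.card (Matrix.SpecialLinearGroup (Fin 2) K) : ℝ) ^ (8 / 9 : ℝ) ≤ (q : ℝ) ^ 8 := by
    have h5 : (Nat.card (Matrix.SpecialLinearGroup (Fin 2) K) : ℝ) ≤ (q : ℝ) ^ 9 := by
      have := card_SL_le (K := K)
      rw [hK, ← pow_mul] at this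
      exact_mod_cast this
    refine (Real.rpow_le_rpow (by positivity) h5 (by norm_num)).trans (le_of_eq ?_)
    rw [← Real.rpow_natCast, ← Real.rpow_mul (by positivity), ← Real.rpow_natCast]
    norm_num
  have rn : (n : ℝ) = (q - 1) / 2 := by
    have : (2 * n + 1 : ℝ) = q := by exact_mod_cast hn
    linarith
  have rh : (h : ℝ) = (q ^ 2 - 1) / 2 := by
    have : (2 * h + 1 : ℝ) = q ^ 2 := by exact_mod_cast h2
    linarith
  have rg : (q : ℝ) ^ 2 * (q - 1) ≤ g := by
    have : (q : ℝ) ^ 3 ≤ g + q ^ 2 := by exact_mod_cast hg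
    linarith
  rw [hcard, h4]
  push_cast
  rw [rn, rh]
  generalize (q : ℝ) = x at *
  have a1 : 2 / 3 * x ≤ x - 1 := by linarith
  have a2 : (81 : ℝ) ≤ x ^ 4 := by
    calc (81 : ℝ) = 3 ^ 4 := by norm_num
      _ ≤ x ^ 4 := by gcongr
  have a3 : 80 / 81 * x ^ 4 ≤ x ^ 4 - 1 := by linarith
  calc 1 / 20 * _ ≤ 1 / 20 * x ^ 8 := by gcongr
    _ ≤ (80 / 81 * x ^ 4) / 4 * (x ^ 2 * (2 / 3 * x) * ((2 / 3 * x) / 2)) := by
        have : 0 ≤ x ^ 8 := by positivity
        nlinarith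
    _ ≤ (x ^ 4 - 1) / 4 * (g * ((x - 1) / 2)) := by
        have : x ^ 2 * (2 / 3 * x) ≤ g := le_trans (by gcongr) rg
        gcongr
        linarith
    _ = _ := by ring

end Pool.Agent.Variants.MP_65c863_al.CubicSharp
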